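import Mathlib

/-!
Basic definitions for the proof of S16881 (Jones' conjecture, MP_4d96c9_nt).
-/

set_option autoImplicit false
open Polynomial Filter Topology

namespace Pool.Agent.H484R2

/-- the polynomial `X^2 + bX + c` over `ℚ` -/
noncomputable def fq (b c : ℤ) : ℚ[X] := X ^ 2 + C (b : ℚ) * X + C (c : ℚ)

/-- evaluation of `x^2+bx+c` on rationals -/
def F (b c : ℤ) (x : ℚ) : ℚ := x ^ 2 + b * x + c

/-- the critical orbit: `orb n = f^n(γ)`, `γ = -b/2` -/
def orb (b c : ℤ) (n : ℕ) : ℚ := (F b c)^[n] (-(b : ℚ) / 2)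

/-- all iterates of `f` (n ≥ 1) are irreducible over `ℚ` -/
def Stable (b c : ℤ) : Prop := ∀ n : ℕ, 1 ≤ n → Irreducible (((fq b c).comp)^[n] X)

end Pool.Agent.H484R2
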